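import Pool.Agent.Lib.H48MaxScatter.Main

/-!
# The planar Euclidean Max-Scatter TSP is NP-complete

The decision version: given a finite set of at least three points of the plane with rational
coordinates and a rational number `L`, all written in binary, is there a round-trip through the
points all of whose edges have Euclidean length at least `L`?
-/

set_option autoImplicit false

namespace Pool.Agent.Results.MP_05e6f5_lc.MaxScatterNPComplete

theorem result : Pool.Agent.Lib.CookLevin.NPComplete Pool.Agent.Lib.H48MaxScatter.MaxScatter :=
  Pool.Agent.Lib.H48MaxScatter.npComplete

end Pool.Agent.Results.MP_05e6f5_lc.MaxScatterNPComplete
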